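import Pool.Agent.Helper46.ND.Tools

/-!
# ND2, part INJ
-/

set_option autoImplicit false

namespace Pool.Agent.Helper46.ND

open MeasureTheory Set Filter Topology
open Pool.Agent.Helper28.ND

/-- integrability of `r ↦ ∫ f r x g r x` and of the inner integrands -/
lemma int_time {f g : ℝ → (Fin 2 → ℝ) → ℝ} (hf : Measurable (U f)) {B : ℝ}
    (hB : ∀ t x, |f t x| ≤ B) (hg : Measurable (U g)) {s t C : ℝ}
    (hC : ∀ r x, s < r → r ≤ t → x ∈ Q4 → |g r x| ≤ C) :
    (∀ r, s < r → r ≤ t → IntegrableOn (fun x => f r x * g r x) Q4) ∧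
    IntegrableOn (fun r => ∫ x in Q4, f r x * g r x) (Ioc s t) := by
  have hm : Measurable fun z : ℝ × (Fin 2 → ℝ) => f z.1 z.2 * g z.1 z.2 := hf.mul hg
  have hQ : IsFiniteMeasure (volume.restrict Q4) := ⟨by
    rw [Measure.restrict_apply_univ]; exact vol_Q4⟩
  have hI : IsFiniteMeasure (volume.restrict (Ioc s t)) := ⟨by
    rw [Measure.restrict_apply_univ]; simp⟩
  constructor
  · intro r h1 h2
    refine Integrable.of_bound (C := B * C) ?_ ?_
    · exact (hm.comp (measurable_const.prodMk measurable_id : Measurable fun x : Fin 2 → ℝ =>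
        ((r, x) : ℝ × (Fin 2 → ℝ)))).aestronglyMeasurable
    · rw [ae_restrict_iff' meas_Q4]
      refine Eventually.of_forall fun x hx => ?_
      rw [Real.norm_eq_abs, abs_mul]
      have h3 := hC r x h1 h2 hx
      have h4 := hB r x
      exact mul_le_mul h4 h3 (abs_nonneg _) ((abs_nonneg _).trans h4)
  · have h1 : Integrable (fun z : ℝ × (Fin 2 → ℝ) => f z.1 z.2 * g z.1 z.2)
        ((volume.restrict (Ioc s t)).prod (volume.restrict Q4)) := by
      refine Integrable.of_bound (C := B * C) hm.aestronglyMeasurable ?_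
      rw [Measure.prod_restrict, ae_restrict_iff' (measurableSet_Ioc.prod meas_Q4)]
      refine Eventually.of_forall fun z hz => ?_
      rw [Real.norm_eq_abs, abs_mul]
      have h3 := hC z.1 z.2 hz.1.1 hz.1.2 hz.2
      have h4 := hB z.1 z.2
      exact mul_le_mul h4 h3 (abs_nonneg _) ((abs_nonneg _).trans h4)
    exact h1.integral_prod_left

lemma Q4_pos {x : Fin 2 → ℝ} (hx : x ∈ Q4) : 0 ≤ x 0 ∧ x 0 ≤ 1 / 4 := ⟨hx.1.le, hx.2.1.le⟩

theorem INJ (hSUB : S_SUB) (hGP : S_GP) : S_INJ := by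
  intro T b f u v hS s t R hs hst htT hR hR8 hb
  obtain ⟨hG2, -, -, ⟨hG0, hG1, hG01, -, -, -, hGd⟩, -, -⟩ := hGP
  have hR2 : 0 < R ^ 2 := by positivity
  set g : ℝ → (Fin 2 → ℝ) → ℝ := fun r x =>
    Real.exp (-(12 * (t - r) / R ^ 2)) * Gp (x 0 / R) with hg
  set φ : ℝ → ℝ := fun y => Gp ((y - 0) / R) with hφ
  have hφ2 : ContDiff ℝ 2 φ := hG2.comp ((contDiff_id.sub contDiff_const).div_const R)
  have hφe : ∀ y, φ y = Gp (y / R) := fun y => by simp [hφ]
  have hge : ∀ r, g r = fun x => Real.exp (-(12 * (t - r) / R ^ 2)) * φ (x 0) := fun r =>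
    funext fun x => by rw [hφe]
  have hT4 : T4L s t g := by
    refine ⟨⟨1, one_pos, ?_⟩, ?_, ?_, ?_⟩
    · apply ContDiff.contDiffOn
      have h1 : ContDiff ℝ 2 (fun z : ℝ × (Fin 2 → ℝ) => Real.exp (-(12 * (t - z.1) / R ^ 2))) :=
        Real.contDiff_exp.comp
          (((contDiff_const.mul (contDiff_const.sub contDiff_fst)).div_const _).neg)
      have h2 : ContDiff ℝ 2 (fun z : ℝ × (Fin 2 → ℝ) => φ (z.2 0)) :=
        hφ2.comp ((contDiff_coord 0).comp contDiff_snd)
      have h3 := h1.mul h2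
      have h4 : U g = fun z : ℝ × (Fin 2 → ℝ) => Real.exp (-(12 * (t - z.1) / R ^ 2)) * φ (z.2 0) := by
        funext z
        simp only [U, hg, hφe]
      rw [h4]
      exact h3
    · intro r x
      simp [hg]
    · intro r x hx
      simp [hg, hx, hG0]
    · intro r x hx
      simp only [hg]
      have h1 : Gp (x 0 / R) = 1 := hG1 _ (by rw [le_div_iff₀ hR]; linarith)
      have h2 : Gp ((![1 / 8, x 1] : Fin 2 → ℝ) 0 / R) = 1 :=
        hG1 _ (by rw [le_div_iff₀ hR]; simpa using hR8)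
      rw [h1, h2]
  have hmain := (hSUB T b f u v hS s t g hs hst htT hT4).1 (by
    intro r x h1 h2 hx
    have hx0 := (Q4_pos hx).1
    have hb0 : ∑ i, b r x i * pd i (g r) x = 0 :=
      Finset.sum_eq_zero fun i _ => by rw [hb r x h1 h2 i, zero_mul]
    have hdt : dt g r x = 12 / R ^ 2 * Real.exp (-(12 * (t - r) / R ^ 2)) * φ (x 0) := by
      have h3 : HasDerivAt (fun s : ℝ => -(12 * (t - s) / R ^ 2)) (12 / R ^ 2) r := by
        have h4 : HasDerivAt (fun s : ℝ => -(12 * (t - s) / R ^ 2)) (-(12 * (-1) / R ^ 2)) r :=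
          (((hasDerivAt_id r).const_sub t).const_mul 12 |>.div_const (R ^ 2)).neg
        convert h4 using 1
        ring
      have h5 := (h3.exp.mul_const (Gp (x 0 / R))).deriv
      unfold dt
      rw [hφe]
      have h6 : (fun s => g s x) = fun s => Real.exp (-(12 * (t - s) / R ^ 2)) * Gp (x 0 / R) := rfl
      rw [h6, h5]
      ring
    have hlap : lap (g r) x = Real.exp (-(12 * (t - r) / R ^ 2)) * (deriv (deriv Gp) (x 0 / R) / R ^ 2) := by
      have h7 := lap_const_mul (ψ := fun y : Fin 2 → ℝ => φ (y 0))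
        (Real.exp (-(12 * (t - r) / R ^ 2))) (hφ2.comp (contDiff_coord 0)) x
      rw [hge r, h7, lap_coord_comp 0 hφ2]
      rw [hφ, deriv2_resc hG2]
      simp
    rw [hdt, hb0, hlap, hφe]
    have h3 := (hGd (x 0 / R) (div_nonneg hx0 hR.le)).2.1
    have h4 : 12 / R ^ 2 * Real.exp (-(12 * (t - r) / R ^ 2)) * Gp (x 0 / R) + 0
        + Real.exp (-(12 * (t - r) / R ^ 2)) * (deriv (deriv Gp) (x 0 / R) / R ^ 2)
        = Real.exp (-(12 * (t - r) / R ^ 2)) / R ^ 2 *
          (12 * Gp (x 0 / R) + deriv (deriv Gp) (x 0 / R)) := by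
      field_simp
      ring
    rw [h4]
    exact mul_nonneg (by positivity) (by linarith))
  have hgt : ∀ x, g t x = Gp (x 0 / R) := fun x => by simp [hg]
  have hgs : ∀ x, u s x * g s x = Real.exp (-(12 * (t - s) / R ^ 2)) * (u s x * Gp (x 0 / R)) :=
    fun x => by simp only [hg]; ring
  simp only [hgt, hgs] at hmain
  rw [integral_const_mul] at hmain
  refine le_trans ?_ hmain
  rw [mul_add]
  refine add_le_add le_rfl ?_
  obtain ⟨B, hB⟩ := hS.sol.dat.bdd
  have hgm : Measurable (U g) := by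
    have h1 : Measurable (fun z : ℝ × (Fin 2 → ℝ) => Real.exp (-(12 * (t - z.1) / R ^ 2))) := by
      fun_prop
    have h2 : Measurable (fun z : ℝ × (Fin 2 → ℝ) => Gp (z.2 0 / R)) :=
      hG2.continuous.measurable.comp (by fun_prop)
    exact h1.mul h2
  have hGm : Measurable (U fun (_ : ℝ) (x : Fin 2 → ℝ) => Gp (x 0 / R)) :=
    hG2.continuous.measurable.comp (by fun_prop)
  have hG1' : ∀ x ∈ Q4, 0 ≤ Gp (x 0 / R) ∧ Gp (x 0 / R) ≤ 1 := fun x hx => by
    have := hG01 (x 0 / R) (div_nonneg (Q4_pos hx).1 hR.le)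
    exact ⟨this.1, this.2.1⟩
  have i1 := int_time hS.sol.dat.mf (B := B) (fun t x => (hB t x).1) hgm (s := s) (t := t) (C := 1)
    (by
      intro r x h1 h2 hx
      simp only [hg]
      obtain ⟨h3, h4⟩ := hG1' x hx
      rw [abs_mul, abs_of_pos (Real.exp_pos _), abs_of_nonneg h3]
      have h5 : Real.exp (-(12 * (t - r) / R ^ 2)) ≤ 1 := by
        rw [Real.exp_le_one_iff]
        have : 0 ≤ 12 * (t - r) / R ^ 2 := by
          apply div_nonneg _ hR2.le
          linarith
        linarith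
      calc Real.exp (-(12 * (t - r) / R ^ 2)) * Gp (x 0 / R) ≤ 1 * 1 :=
            mul_le_mul h5 h4 h3 (by norm_num)
        _ = 1 := one_mul 1)
  have i2 := int_time hS.sol.dat.mf (B := B) (fun t x => (hB t x).1) hGm (s := s) (t := t) (C := 1)
    (by
      intro r x h1 h2 hx
      obtain ⟨h3, h4⟩ := hG1' x hx
      rw [abs_of_nonneg h3]
      exact h4)
  rw [← integral_const_mul]
  refine setIntegral_mono_on (i2.2.const_mul _) i1.2 measurableSet_Ioc ?_
  intro r hr
  rw [← integral_const_mul]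
  refine setIntegral_mono_on ((i2.1 r hr.1 hr.2).const_mul _) (i1.1 r hr.1 hr.2) meas_Q4 ?_
  intro x hx
  have h1 := hS.fp r x (Q4_pos hx).1 (Q4_pos hx).2
  obtain ⟨h3, h4⟩ := hG1' x hx
  have h5 : Real.exp (-(12 * (t - s) / R ^ 2)) ≤ Real.exp (-(12 * (t - r) / R ^ 2)) := by
    apply Real.exp_le_exp.2
    have : 12 * (t - r) / R ^ 2 ≤ 12 * (t - s) / R ^ 2 := by
      apply div_le_div_of_nonneg_right _ hR2.le
      linarith [hr.1]
    linarith
  calc Real.exp (-(12 * (t - s) / R ^ 2)) * (f r x * Gp (x 0 / R))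
      ≤ Real.exp (-(12 * (t - r) / R ^ 2)) * (f r x * Gp (x 0 / R)) :=
        mul_le_mul_of_nonneg_right h5 (mul_nonneg h1 h3)
    _ = f r x * g r x := by simp only [hg]; ring

theorem INJ.main (hSUB : S_SUB) (hGP : S_GP) : S_INJ := INJ hSUB hGP

end Pool.Agent.Helper46.ND
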