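import Pool.Agent.Helper46.ND.INJ

/-!
# ND2, part WST
-/

set_option autoImplicit false

namespace Pool.Agent.Helper46.ND

open MeasureTheory Set Filter Topology
open Pool.Agent.Helper28.ND

/-- the source term is nonnegative -/
lemma src_nonneg {T : ℝ} {b : ℝ → (Fin 2 → ℝ) → (Fin 2 → ℝ)} {f : ℝ → (Fin 2 → ℝ) → ℝ}
    {u : ℝ → (Fin 2 → ℝ) → ℝ} {v : ℝ → (Fin 2 → ℝ) → (Fin 2 → ℝ)} (hS : Sit T b f u v)
    (s t : ℝ) (g : ℝ → (Fin 2 → ℝ) → ℝ) (hg : ∀ r x, x ∈ Q4 → 0 ≤ g r x) :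
    0 ≤ ∫ r in Ioc s t, ∫ x in Q4, f r x * g r x := by
  refine integral_nonneg fun r => ?_
  refine setIntegral_nonneg meas_Q4 fun x hx => ?_
  exact mul_nonneg (hS.fp r x (Q4_pos hx).1 (Q4_pos hx).2) (hg r x hx)

/-- the two profiles of `psiA` -/
noncomputable def ph0 (r σ l A : ℝ) (y : ℝ) : ℝ := A - Real.exp (-σ * (y - l)) - 4 * (y / r) ^ 2
noncomputable def ph1 (r : ℝ) (y : ℝ) : ℝ := -(2 * (1 - Real.cos (2 * Real.pi * y / r)))

lemma psiA_eq (r σ l A : ℝ) :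
    psiA r σ l A = fun x => ph0 r σ l A (x 0) + ph1 r (x 1) := by
  funext x
  unfold psiA ph0 ph1
  ring

lemma ph0_cd (r σ l A : ℝ) : ContDiff ℝ 2 (ph0 r σ l A) := by
  unfold ph0
  fun_prop

lemma ph1_cd (r : ℝ) : ContDiff ℝ 2 (ph1 r) := by
  unfold ph1
  fun_prop

lemma ph0_d1 (r σ l A y : ℝ) : HasDerivAt (ph0 r σ l A)
    (σ * Real.exp (-σ * (y - l)) - 8 * y / r ^ 2) y := by
  have h1 : HasDerivAt (fun y : ℝ => Real.exp (-σ * (y - l))) (Real.exp (-σ * (y - l)) * (-σ * 1)) y :=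
    (((hasDerivAt_id y).sub_const l).const_mul (-σ)).exp
  have h2 : HasDerivAt (fun y : ℝ => (y / r) ^ 2) (2 * (y / r) ^ 1 * (1 / r)) y := by
    have h : HasDerivAt (fun y : ℝ => y / r) (1 / r) y := (hasDerivAt_id y).div_const r
    have h' : HasDerivAt (fun y : ℝ => (y / r) * (y / r)) (1 / r * (y / r) + y / r * (1 / r)) y :=
      h.mul h
    have e : (fun y : ℝ => (y / r) ^ 2) = fun y => (y / r) * (y / r) := funext fun y => sq _
    rw [e]
    have e2 : 2 * (y / r) ^ 1 * (1 / r) = 1 / r * (y / r) + y / r * (1 / r) := by ring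
    rw [e2]
    exact h'
  have h3 := ((hasDerivAt_const y A).sub h1).sub (h2.const_mul 4)
  have h4 : HasDerivAt (ph0 r σ l A)
      (0 - Real.exp (-σ * (y - l)) * (-σ * 1) - 4 * (2 * (y / r) ^ 1 * (1 / r))) y := h3
  convert h4 using 1
  ring

lemma ph0_d2 (r σ l A y : ℝ) : deriv (deriv (ph0 r σ l A)) y
    = -(σ ^ 2 * Real.exp (-σ * (y - l))) - 8 / r ^ 2 := by
  have h0 : deriv (ph0 r σ l A) = fun y => σ * Real.exp (-σ * (y - l)) - 8 * y / r ^ 2 :=
    funext fun y => (ph0_d1 r σ l A y).deriv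
  rw [h0]
  have h1 : HasDerivAt (fun y : ℝ => Real.exp (-σ * (y - l))) (Real.exp (-σ * (y - l)) * (-σ * 1)) y :=
    (((hasDerivAt_id y).sub_const l).const_mul (-σ)).exp
  have h2 : HasDerivAt (fun y : ℝ => 8 * y / r ^ 2) (8 * 1 / r ^ 2) y :=
    ((hasDerivAt_id y).const_mul 8).div_const (r ^ 2)
  have h3 := ((h1.const_mul σ).sub h2).deriv
  have h4 : deriv (fun y => σ * Real.exp (-σ * (y - l)) - 8 * y / r ^ 2) y
    = σ * (Real.exp (-σ * (y - l)) * (-σ * 1)) - 8 * 1 / r ^ 2 := h3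
  rw [h4]
  ring

lemma ph1_d1 (r y : ℝ) : HasDerivAt (ph1 r)
    (-(2 * (2 * Real.pi / r) * Real.sin (2 * Real.pi * y / r))) y := by
  have h1 : HasDerivAt (fun y : ℝ => 2 * Real.pi * y / r) (2 * Real.pi * 1 / r) y :=
    ((hasDerivAt_id y).const_mul (2 * Real.pi)).div_const r
  have h2 := ((((hasDerivAt_const y (1 : ℝ)).sub h1.cos).const_mul 2).neg)
  have h3 : HasDerivAt (ph1 r)
    (-(2 * (0 - -Real.sin (2 * Real.pi * y / r) * (2 * Real.pi * 1 / r)))) y := h2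
  convert h3 using 1
  ring

lemma ph1_d2 (r y : ℝ) : deriv (deriv (ph1 r)) y
    = -(2 * (2 * Real.pi / r) ^ 2 * Real.cos (2 * Real.pi * y / r)) := by
  have h0 : deriv (ph1 r) = fun y => -(2 * (2 * Real.pi / r) * Real.sin (2 * Real.pi * y / r)) :=
    funext fun y => (ph1_d1 r y).deriv
  rw [h0]
  have h1 : HasDerivAt (fun y : ℝ => 2 * Real.pi * y / r) (2 * Real.pi * 1 / r) y :=
    ((hasDerivAt_id y).const_mul (2 * Real.pi)).div_const r
  have h2 := ((h1.sin.const_mul (2 * (2 * Real.pi / r))).neg).deriv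
  have h3 : deriv (fun y => -(2 * (2 * Real.pi / r) * Real.sin (2 * Real.pi * y / r))) y
    = -(2 * (2 * Real.pi / r) * (Real.cos (2 * Real.pi * y / r) * (2 * Real.pi * 1 / r))) := h2
  rw [h3]
  ring

lemma lap_psiA (r σ l A : ℝ) (x : Fin 2 → ℝ) : lap (psiA r σ l A) x
    = -(σ ^ 2 * Real.exp (-σ * (x 0 - l))) - 8 / r ^ 2
      - 2 * (2 * Real.pi / r) ^ 2 * Real.cos (2 * Real.pi * x 1 / r) := by
  have c0 : ContDiff ℝ 2 (fun x : Fin 2 → ℝ => ph0 r σ l A (x 0)) :=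
    (ph0_cd r σ l A).comp (contDiff_coord 0)
  have c1 : ContDiff ℝ 2 (fun x : Fin 2 → ℝ => ph1 r (x 1)) :=
    (ph1_cd r).comp (contDiff_coord 1)
  rw [psiA_eq, lap_add c0 c1, lap_coord_comp 0 (ph0_cd r σ l A), lap_coord_comp 1 (ph1_cd r),
    ph0_d2, ph1_d2]
  ring

lemma psiA_cd (r σ l A : ℝ) : ContDiff ℝ 2 (psiA r σ l A) := by
  rw [psiA_eq]
  exact ((ph0_cd r σ l A).comp (contDiff_coord 0)).add ((ph1_cd r).comp (contDiff_coord 1))

lemma psiA_per (n : ℕ) (hn : 8 ≤ n) (σ l A : ℝ) (x : Fin 2 → ℝ) :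
    psiA (1 / (n : ℝ)) σ l A ![x 0, x 1 + 1] = psiA (1 / (n : ℝ)) σ l A x := by
  have hn0 : (n : ℝ) ≠ 0 := by
    have : 0 < n := by omega
    exact_mod_cast this.ne'
  unfold psiA
  have h : 2 * Real.pi * (x 1 + 1) / (1 / (n : ℝ)) = 2 * Real.pi * x 1 / (1 / (n : ℝ)) + n * (2 * Real.pi) := by
    field_simp
  simp only [Matrix.cons_val_zero, Matrix.cons_val_one]
  rw [h, Real.cos_add_nat_mul_two_pi]

/-- the moving test function is `C²` -/
lemma psiA_move_cd (r σ : ℝ) {l A : ℝ → ℝ} (hl : ContDiff ℝ 2 l) (hA : ContDiff ℝ 2 A) :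
    ContDiff ℝ 2 (fun z : ℝ × (Fin 2 → ℝ) => psiA r σ (l z.1) (A z.1) z.2) := by
  have h0 : ContDiff ℝ 2 (fun z : ℝ × (Fin 2 → ℝ) => z.2 0) := (contDiff_coord 0).comp contDiff_snd
  have h1 : ContDiff ℝ 2 (fun z : ℝ × (Fin 2 → ℝ) => z.2 1) := (contDiff_coord 1).comp contDiff_snd
  have hl' : ContDiff ℝ 2 (fun z : ℝ × (Fin 2 → ℝ) => l z.1) := hl.comp contDiff_fst
  have hA' : ContDiff ℝ 2 (fun z : ℝ × (Fin 2 → ℝ) => A z.1) := hA.comp contDiff_fst
  unfold psiA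
  have e1 : ContDiff ℝ 2 (fun z : ℝ × (Fin 2 → ℝ) => Real.exp (-σ * (z.2 0 - l z.1))) :=
    Real.contDiff_exp.comp (contDiff_const.mul (h0.sub hl'))
  have e2 : ContDiff ℝ 2 (fun z : ℝ × (Fin 2 → ℝ) => 2 * (1 - Real.cos (2 * Real.pi * z.2 1 / r))) :=
    contDiff_const.mul (contDiff_const.sub (Real.contDiff_cos.comp
      ((contDiff_const.mul h1).div_const r)))
  have e3 : ContDiff ℝ 2 (fun z : ℝ × (Fin 2 → ℝ) => 4 * (z.2 0 / r) ^ 2) :=
    contDiff_const.mul ((h0.div_const r).pow 2)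
  exact ((hA'.sub e1).sub e2).sub e3

/-- the cutoff moving test function is an admissible test function -/
lemma T4L_move (hjj : ContDiff ℝ 2 jj) (hj0 : ∀ y, y ≤ 0 → jj y = 0) (n : ℕ) (hn : 8 ≤ n)
    (σ s t : ℝ) {l A : ℝ → ℝ} (hl : ContDiff ℝ 2 l) (hA : ContDiff ℝ 2 A) {δ : ℝ} (hδ : 0 < δ)
    (hw : ∀ τ ∈ Ioo (s - δ) (t + δ), A τ ≤ Real.exp (σ * l τ))
    (hf : ∀ τ ∈ Ioo (s - δ) (t + δ), A τ ≤ 4) :
    T4L s t (fun τ x => if s - δ < τ ∧ τ < t + δ then jj (psiA (1 / (n : ℝ)) σ (l τ) (A τ) x)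
      else 0) := by
  have hn0 : (8 : ℝ) ≤ n := by exact_mod_cast hn
  refine ⟨⟨δ, hδ, ?_⟩, ?_, ?_, ?_⟩
  · have h1 : ContDiffOn ℝ 2 (fun z : ℝ × (Fin 2 → ℝ) => jj (psiA (1 / (n : ℝ)) σ (l z.1) (A z.1) z.2))
        (Ioo (s - δ) (t + δ) ×ˢ univ) :=
      (hjj.comp (psiA_move_cd _ σ hl hA)).contDiffOn
    refine h1.congr fun z hz => ?_
    have hz1 : s - δ < z.1 ∧ z.1 < t + δ := hz.1
    simp only [U, if_pos hz1]
  · intro τ x
    simp only [psiA_per n hn]
  · intro τ x hx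
    split_ifs with h
    · apply hj0
      have h1 := hw τ h
      have h2 := Real.cos_le_one (2 * Real.pi * x 1 / (1 / (n : ℝ)))
      unfold psiA
      rw [hx]
      have h3 : -σ * (0 - l τ) = σ * l τ := by ring
      rw [h3]
      have h4 : 4 * ((0 : ℝ) / (1 / (n : ℝ))) ^ 2 = 0 := by simp
      rw [h4]
      linarith
    · rfl
  · intro τ x hx
    have key : ∀ y : Fin 2 → ℝ, 1 / 8 ≤ y 0 → (s - δ < τ ∧ τ < t + δ) →
        jj (psiA (1 / (n : ℝ)) σ (l τ) (A τ) y) = 0 := by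
      intro y hy h
      apply hj0
      have h1 := hf τ h
      have h2 := Real.cos_le_one (2 * Real.pi * y 1 / (1 / (n : ℝ)))
      have h3 := Real.exp_pos (-σ * (y 0 - l τ))
      have h5 : y 0 / (1 / (n : ℝ)) = y 0 * n := by rw [div_div_eq_mul_div, div_one]
      have h6 : 1 ≤ y 0 / (1 / (n : ℝ)) := by
        rw [h5]
        nlinarith
      have h7 : 1 ≤ (y 0 / (1 / (n : ℝ))) ^ 2 := by nlinarith
      unfold psiA
      linarith
    show (if s - δ < τ ∧ τ < t + δ then jj (psiA (1 / (n : ℝ)) σ (l τ) (A τ) x) else 0)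
      = if s - δ < τ ∧ τ < t + δ then jj (psiA (1 / (n : ℝ)) σ (l τ) (A τ) ![1 / 8, x 1]) else 0
    split_ifs with h
    · rw [key x hx h, key _ (by simp) h]
    · rfl

/-- the operator applied to the moving test function -/
lemma op_move (hjj : ContDiff ℝ 2 jj) (r σ δ s t : ℝ) {l A : ℝ → ℝ} {l' A' τ : ℝ}
    (hl : HasDerivAt l l' τ) (hA : HasDerivAt A A' τ)
    (hτ : s - δ < τ ∧ τ < t + δ) (b : Fin 2 → ℝ) (x : Fin 2 → ℝ) :
    dt (fun τ x => if s - δ < τ ∧ τ < t + δ then jj (psiA r σ (l τ) (A τ) x) else 0) τ x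
      + (∑ i, b i * pd i ((fun τ x => if s - δ < τ ∧ τ < t + δ then jj (psiA r σ (l τ) (A τ) x)
        else 0) τ) x)
      + lap ((fun τ x => if s - δ < τ ∧ τ < t + δ then jj (psiA r σ (l τ) (A τ) x) else 0) τ) x
    = deriv jj (psiA r σ (l τ) (A τ) x) * (A' - σ * l' * Real.exp (-σ * (x 0 - l τ))
        + (∑ i, b i * pd i (psiA r σ (l τ) (A τ)) x) + lap (psiA r σ (l τ) (A τ)) x)
      + deriv (deriv jj) (psiA r σ (l τ) (A τ) x)
        * ∑ i, (pd i (psiA r σ (l τ) (A τ)) x) ^ 2 := by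
  have hgτ : (fun τ (x : Fin 2 → ℝ) => if s - δ < τ ∧ τ < t + δ then jj (psiA r σ (l τ) (A τ) x)
      else 0) τ = fun x => jj (psiA r σ (l τ) (A τ) x) := by
    funext x
    simp only [if_pos hτ]
  have hd : Differentiable ℝ jj := hjj.differentiable (by norm_num)
  have hp : Differentiable ℝ (psiA r σ (l τ) (A τ)) := (psiA_cd _ _ _ _).differentiable (by norm_num)
  have hdt : dt (fun τ x => if s - δ < τ ∧ τ < t + δ then jj (psiA r σ (l τ) (A τ) x) else 0) τ x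
      = deriv jj (psiA r σ (l τ) (A τ) x) * (A' - σ * l' * Real.exp (-σ * (x 0 - l τ))) := by
    unfold dt
    have hev : (fun τ => if s - δ < τ ∧ τ < t + δ then jj (psiA r σ (l τ) (A τ) x) else 0)
        =ᶠ[𝓝 τ] fun τ => jj (psiA r σ (l τ) (A τ) x) := by
      filter_upwards [Ioo_mem_nhds hτ.1 hτ.2] with τ' hτ'
      have h : s - δ < τ' ∧ τ' < t + δ := hτ'
      simp only [if_pos h]
    rw [hev.deriv_eq]
    have h1 : HasDerivAt (fun τ => Real.exp (-σ * (x 0 - l τ)))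
        (Real.exp (-σ * (x 0 - l τ)) * (-σ * (0 - l'))) τ :=
      (((hasDerivAt_const τ (x 0)).sub hl).const_mul (-σ)).exp
    have h2 : HasDerivAt (fun τ => psiA r σ (l τ) (A τ) x)
        (A' - Real.exp (-σ * (x 0 - l τ)) * (-σ * (0 - l'))) τ := by
      unfold psiA
      exact (((hA.sub h1).sub_const _).sub_const _)
    have h3 : HasDerivAt (fun τ => jj (psiA r σ (l τ) (A τ) x))
        (deriv jj (psiA r σ (l τ) (A τ) x) * (A' - Real.exp (-σ * (x 0 - l τ)) * (-σ * (0 - l')))) τ :=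
      (hd _).hasDerivAt.comp τ h2
    rw [h3.deriv]
    ring
  rw [hdt, hgτ, lap_comp hjj (psiA_cd _ _ _ _)]
  have hpd : ∀ i, pd i (fun x => jj (psiA r σ (l τ) (A τ) x)) x
      = deriv jj (psiA r σ (l τ) (A τ) x) * pd i (psiA r σ (l τ) (A τ)) x := fun i =>
    pd_comp i jj _ x (hd _) (hp _)
  simp only [hpd]
  have hsum : ∑ i, b i * (deriv jj (psiA r σ (l τ) (A τ) x) * pd i (psiA r σ (l τ) (A τ)) x)
      = deriv jj (psiA r σ (l τ) (A τ) x) * ∑ i, b i * pd i (psiA r σ (l τ) (A τ)) x := by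
    rw [Finset.mul_sum]
    exact Finset.sum_congr rfl fun i _ => by ring
  rw [hsum]
  ring

theorem WST1 (hSUB : S_SUB) (hGP : S_GP) (T : ℝ) (b : ℝ → (Fin 2 → ℝ) → (Fin 2 → ℝ))
    (f : ℝ → (Fin 2 → ℝ) → ℝ)
    (u : ℝ → (Fin 2 → ℝ) → ℝ) (v : ℝ → (Fin 2 → ℝ) → (Fin 2 → ℝ)) (hS : Sit T b f u v)
    (n : ℕ) (s L σ l A y0 : ℝ) (hn : 8 ≤ n) (hs : 0 ≤ s) (hL : 0 < L) (hT : s + L ≤ T)
    (hσ : 0 < σ) (hy0 : 0 < y0)
    (hb : ∀ r x, s < r → r < s + L → x ∈ Q4 → y0 ≤ x 0 → ∀ i, b r x i = 0)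
    (hl : y0 ≤ l - σ * L) (_hA0 : 0 ≤ A) (hA : A + aW (1 / (n : ℝ)) L ≤ 1) :
    ∫ x in Q4, u s x * jj (psiA (1 / (n : ℝ)) σ l A x)
      ≤ ∫ x in Q4, u (s + L) x
        * jj (psiA (1 / (n : ℝ)) σ (l - σ * L) (A + aW (1 / (n : ℝ)) L) x) := by
  obtain ⟨-, -, hjj, -, -, hj0, hjp, -, -⟩ := hGP
  have hn0 : (8 : ℝ) ≤ n := by exact_mod_cast hn
  set r : ℝ := 1 / (n : ℝ) with hr
  have hr0 : 0 < r := by
    rw [hr]
    positivity
  set a : ℝ := 2 * (2 * Real.pi / r) ^ 2 + 8 / r ^ 2 with ha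
  have ha0 : 0 < a := by
    rw [ha]
    positivity
  have haW : aW r L = L * a := rfl
  rw [haW] at hA ⊢
  obtain ⟨δ, hδ, hδ1, hδ2, hδ3⟩ : ∃ δ : ℝ, 0 < δ ∧ σ * δ ≤ y0 / 2 ∧ a * δ ≤ 1 ∧
      a * δ ≤ σ * y0 / 2 := by
    refine ⟨min (y0 / (2 * σ)) (min (1 / a) (σ * y0 / (2 * a))), ?_, ?_, ?_, ?_⟩
    · refine lt_min (by positivity) (lt_min (by positivity) (by positivity))
    · calc σ * min (y0 / (2 * σ)) (min (1 / a) (σ * y0 / (2 * a))) ≤ σ * (y0 / (2 * σ)) :=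
            mul_le_mul_of_nonneg_left (min_le_left _ _) hσ.le
        _ = y0 / 2 := by field_simp
    · calc a * min (y0 / (2 * σ)) (min (1 / a) (σ * y0 / (2 * a))) ≤ a * (1 / a) :=
            mul_le_mul_of_nonneg_left ((min_le_right _ _).trans (min_le_left _ _)) ha0.le
        _ = 1 := by field_simp
    · calc a * min (y0 / (2 * σ)) (min (1 / a) (σ * y0 / (2 * a))) ≤ a * (σ * y0 / (2 * a)) :=
            mul_le_mul_of_nonneg_left ((min_le_right _ _).trans (min_le_right _ _)) ha0.le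
        _ = σ * y0 / 2 := by field_simp
  set lf : ℝ → ℝ := fun τ => l - σ * (τ - s) with hlf
  set Af : ℝ → ℝ := fun τ => A + a * (τ - s) with hAf
  have clf : ContDiff ℝ 2 lf := by
    rw [hlf]; fun_prop
  have cAf : ContDiff ℝ 2 Af := by
    rw [hAf]; fun_prop
  have dlf : ∀ τ, HasDerivAt lf (-σ) τ := fun τ => by
    have h := (((hasDerivAt_id τ).sub_const s).const_mul σ).const_sub l
    have h' : HasDerivAt lf (-(σ * 1)) τ := h
    rwa [mul_one] at h'
  have dAf : ∀ τ, HasDerivAt Af a τ := fun τ => by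
    have h := (((hasDerivAt_id τ).sub_const s).const_mul a).const_add A
    have h' : HasDerivAt Af (a * 1) τ := h
    rwa [mul_one] at h'
  have hT4 := T4L_move hjj (fun y hy => (hj0 y hy).1) n hn σ s (s + L) clf cAf hδ
    (by
      intro τ hτ
      have h1 : σ * y0 / 2 + 1 ≤ Real.exp (σ * lf τ) := by
        have h2 := Real.add_one_le_exp (σ * lf τ)
        have h3 : y0 / 2 ≤ lf τ := by
          simp only [hlf]
          have h4 : σ * (τ - s) ≤ σ * (L + δ) := mul_le_mul_of_nonneg_left (by linarith [hτ.2]) hσ.le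
          nlinarith
        have h5 : σ * (y0 / 2) ≤ σ * lf τ := mul_le_mul_of_nonneg_left h3 hσ.le
        linarith
      have h6 : Af τ ≤ A + a * (L + δ) := by
        simp only [hAf]
        have := mul_le_mul_of_nonneg_left (show τ - s ≤ L + δ by linarith [hτ.2]) ha0.le
        linarith
      nlinarith)
    (by
      intro τ hτ
      have h6 : Af τ ≤ A + a * (L + δ) := by
        simp only [hAf]
        have := mul_le_mul_of_nonneg_left (show τ - s ≤ L + δ by linarith [hτ.2]) ha0.le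
        linarith
      nlinarith)
  rw [← hr] at hT4
  have hmain := (hSUB T b f u v hS s (s + L) _ hs (by linarith) hT hT4).1 (by
    intro τ x h1 h2 hx
    have hτ : s - δ < τ ∧ τ < s + L + δ := ⟨by linarith, by linarith⟩
    rw [op_move hjj r σ δ s (s + L) (dlf τ) (dAf τ) hτ (b τ x) x]
    have hjp' := hjp (psiA r σ (lf τ) (Af τ) x)
    refine add_nonneg ?_ (mul_nonneg hjp'.2.2 (Finset.sum_nonneg fun i _ => sq_nonneg _))
    rcases le_or_gt (psiA r σ (lf τ) (Af τ) x) 0 with hp | hp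
    · rw [(hj0 _ hp).2.1, zero_mul]
    · refine mul_nonneg hjp'.2.1 ?_
      have hA1 : Af τ ≤ 1 := by
        simp only [hAf]
        have := mul_le_mul_of_nonneg_left (show τ - s ≤ L by linarith) ha0.le
        linarith
      have hc := Real.cos_le_one (2 * Real.pi * x 1 / r)
      have hsq : 0 ≤ (x 0 / r) ^ 2 := sq_nonneg _
      have hexp : Real.exp (-σ * (x 0 - lf τ)) < 1 := by
        unfold psiA at hp
        linarith
      have hxl : lf τ < x 0 := by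
        rw [Real.exp_lt_one_iff] at hexp
        by_contra hcon
        push Not at hcon
        nlinarith
      have hly : y0 ≤ lf τ := by
        simp only [hlf]
        have := mul_le_mul_of_nonneg_left (show τ - s ≤ L by linarith) hσ.le
        linarith
      have hb0 : ∑ i, b τ x i * pd i (psiA r σ (lf τ) (Af τ)) x = 0 :=
        Finset.sum_eq_zero fun i _ => by
          rw [hb τ x h1 h2 hx (by linarith) i, zero_mul]
      rw [hb0, lap_psiA]
      have h3 : 0 ≤ 2 * (2 * Real.pi / r) ^ 2 * (1 - Real.cos (2 * Real.pi * x 1 / r)) :=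
        mul_nonneg (by positivity) (by linarith)
      rw [ha]
      linarith)
  have hs1 : s - δ < s ∧ s < s + L + δ := ⟨by linarith, by linarith⟩
  have hs2 : s - δ < s + L ∧ s + L < s + L + δ := ⟨by linarith, by linarith⟩
  have e1 : lf s = l := by simp [hlf]
  have e2 : Af s = A := by simp [hAf]
  have e3 : lf (s + L) = l - σ * L := by simp [hlf]
  have e4 : Af (s + L) = A + L * a := by simp [hAf]; ring
  simp only [if_pos hs1, if_pos hs2, e1, e2, e3, e4] at hmain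
  have hsrc := src_nonneg hS s (s + L) (fun τ x => if s - δ < τ ∧ τ < s + L + δ then
      jj (psiA r σ (lf τ) (Af τ) x) else 0) (by
    intro τ x _
    show 0 ≤ if s - δ < τ ∧ τ < s + L + δ then jj (psiA r σ (lf τ) (Af τ) x) else 0
    split_ifs
    · exact (hjp _).1
    · exact le_rfl)
  linarith

theorem WST2 (hSUB : S_SUB) (hGP : S_GP) (T : ℝ) (b : ℝ → (Fin 2 → ℝ) → (Fin 2 → ℝ))
    (f : ℝ → (Fin 2 → ℝ) → ℝ)
    (u : ℝ → (Fin 2 → ℝ) → ℝ) (v : ℝ → (Fin 2 → ℝ) → (Fin 2 → ℝ)) (hS : Sit T b f u v)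
    (s L l y0 w : ℝ) (hs : 0 ≤ s) (hL : 0 < L) (hT : s + L ≤ T)
    (hy0 : 0 < y0) (hw : 0 < w)
    (hb : ∀ r x, s < r → r < s + L → x ∈ Q4 → y0 ≤ x 0 → ∀ i, b r x i = 0)
    (hl : y0 ≤ l) (hlw : l + w ≤ 1 / 8) :
    Real.exp (-(12 * L / w ^ 2)) * ∫ x in Q4, u s x * Sg ((x 0 - l) / w)
      ≤ ∫ x in Q4, u (s + L) x * Sg ((x 0 - l) / w) := by
  obtain ⟨-, hS2, -, -, ⟨hSg0, hSg1, hSgb, hSgd⟩, -⟩ := hGP
  have hw2 : 0 < w ^ 2 := by positivity
  set t : ℝ := s + L with ht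
  set φ : ℝ → ℝ := fun y => Sg ((y - l) / w) with hφ
  have hφ2 : ContDiff ℝ 2 φ := hS2.comp ((contDiff_id.sub contDiff_const).div_const w)
  set g : ℝ → (Fin 2 → ℝ) → ℝ := fun r x =>
    Real.exp (-(12 * (t - r) / w ^ 2)) * φ (x 0) with hg
  have hT4 : T4L s t g := by
    refine ⟨⟨1, one_pos, ?_⟩, ?_, ?_, ?_⟩
    · apply ContDiff.contDiffOn
      have h1 : ContDiff ℝ 2 (fun z : ℝ × (Fin 2 → ℝ) => Real.exp (-(12 * (t - z.1) / w ^ 2))) :=
        Real.contDiff_exp.comp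
          (((contDiff_const.mul (contDiff_const.sub contDiff_fst)).div_const _).neg)
      have h2 : ContDiff ℝ 2 (fun z : ℝ × (Fin 2 → ℝ) => φ (z.2 0)) :=
        hφ2.comp ((contDiff_coord 0).comp contDiff_snd)
      exact h1.mul h2
    · intro r x
      simp [hg]
    · intro r x hx
      simp only [hg, hφ]
      rw [hSg0 _ (div_nonpos_of_nonpos_of_nonneg (by linarith) hw.le), mul_zero]
    · intro r x hx
      simp only [hg, hφ]
      rw [hSg1 ((x 0 - l) / w) (by rw [le_div_iff₀ hw]; linarith),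
        hSg1 (((![1 / 8, x 1] : Fin 2 → ℝ) 0 - l) / w) (by
          rw [le_div_iff₀ hw]
          simp only [Matrix.cons_val_zero]
          linarith)]
  have hmain := (hSUB T b f u v hS s t g hs (by linarith) hT hT4).1 (by
    intro r x h1 h2 hx
    have hx0 := (Q4_pos hx).1
    have hpd : ∀ i, pd i (g r) x = Real.exp (-(12 * (t - r) / w ^ 2)) *
        (if i = 0 then deriv φ (x 0) else 0) := by
      intro i
      have h3 := pd_const_mul i (Real.exp (-(12 * (t - r) / w ^ 2))) (fun x : Fin 2 → ℝ => φ (x 0)) x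
        ((hφ2.differentiable (by norm_num)).comp (diff_coord 0) x)
      have h4 : pd i (g r) x = pd i (fun y : Fin 2 → ℝ => Real.exp (-(12 * (t - r) / w ^ 2)) * φ (y 0)) x :=
        rfl
      rw [h4, h3, pd_coord_comp i 0 φ x ((hφ2.differentiable (by norm_num)) _)]
    have hb0 : ∑ i, b r x i * pd i (g r) x = 0 := by
      refine Finset.sum_eq_zero fun i _ => ?_
      rcases le_or_gt l (x 0) with h | h
      · rw [hb r x h1 h2 hx (by linarith) i, zero_mul]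
      · rw [hpd i]
        have h3 : deriv φ (x 0) = 0 := by
          have hev : φ =ᶠ[𝓝 (x 0)] fun _ => 0 := by
            filter_upwards [Iio_mem_nhds h] with y hy
            exact hSg0 _ (div_nonpos_of_nonpos_of_nonneg (by linarith [show y < l from hy]) hw.le)
          rw [hev.deriv_eq]
          simp
        rw [h3]
        simp
    have hdt : dt g r x = 12 / w ^ 2 * Real.exp (-(12 * (t - r) / w ^ 2)) * φ (x 0) := by
      have h3 : HasDerivAt (fun s : ℝ => -(12 * (t - s) / w ^ 2)) (12 / w ^ 2) r := by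
        have h4 : HasDerivAt (fun s : ℝ => -(12 * (t - s) / w ^ 2)) (-(12 * (-1) / w ^ 2)) r :=
          (((hasDerivAt_id r).const_sub t).const_mul 12 |>.div_const (w ^ 2)).neg
        convert h4 using 1
        ring
      have h5 := (h3.exp.mul_const (φ (x 0))).deriv
      unfold dt
      have h6 : (fun s => g s x) = fun s => Real.exp (-(12 * (t - s) / w ^ 2)) * φ (x 0) := rfl
      rw [h6, h5]
      ring
    have hlap : lap (g r) x = Real.exp (-(12 * (t - r) / w ^ 2)) *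
        (deriv (deriv Sg) ((x 0 - l) / w) / w ^ 2) := by
      have h7 := lap_const_mul (ψ := fun y : Fin 2 → ℝ => φ (y 0))
        (Real.exp (-(12 * (t - r) / w ^ 2))) (hφ2.comp (contDiff_coord 0)) x
      have h8 : lap (g r) x = lap (fun y : Fin 2 → ℝ => Real.exp (-(12 * (t - r) / w ^ 2)) * φ (y 0)) x :=
        rfl
      rw [h8, h7, lap_coord_comp 0 hφ2]
      rw [hφ, deriv2_resc hS2]
    rw [hdt, hb0, hlap]
    have h3 := (hSgd ((x 0 - l) / w)).2
    have h4 : 12 / w ^ 2 * Real.exp (-(12 * (t - r) / w ^ 2)) * φ (x 0) + 0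
        + Real.exp (-(12 * (t - r) / w ^ 2)) * (deriv (deriv Sg) ((x 0 - l) / w) / w ^ 2)
        = Real.exp (-(12 * (t - r) / w ^ 2)) / w ^ 2 *
          (12 * φ (x 0) + deriv (deriv Sg) ((x 0 - l) / w)) := by
      field_simp
      ring
    rw [h4]
    refine mul_nonneg (by positivity) ?_
    simp only [hφ]
    linarith)
  have hgt : ∀ x : Fin 2 → ℝ, g t x = Sg ((x 0 - l) / w) := fun x => by simp [hg, hφ]
  have hgs : ∀ x : Fin 2 → ℝ, u s x * g s x
      = Real.exp (-(12 * L / w ^ 2)) * (u s x * Sg ((x 0 - l) / w)) := fun x => by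
    have e : t - s = L := by rw [ht]; ring
    simp only [hg, hφ, e]
    ring
  simp only [hgt, hgs] at hmain
  rw [integral_const_mul] at hmain
  have hsrc := src_nonneg hS s t g (by
    intro τ x _
    simp only [hg, hφ]
    exact mul_nonneg (Real.exp_pos _).le (hSgb _).1)
  linarith

theorem WST.main (hSUB : S_SUB) (hGP : S_GP) : S_WST := by
  intro T b f u v hS n s L σ l A y0 w hn hs hL hT hσ hy0 hw hb
  exact ⟨fun h1 h2 h3 => WST1 hSUB hGP T b f u v hS n s L σ l A y0 hn hs hL hT hσ hy0 hb h1 h2 h3,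
    fun h1 h2 => WST2 hSUB hGP T b f u v hS s L l y0 w hs hL hT hy0 hw hb h1 h2⟩

end Pool.Agent.Helper46.ND
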