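import Pool.Agent.Helper28.ND.Spec3

/-!
# ND2: calculus of `pd`, `lap`
-/

set_option autoImplicit false

namespace Pool.Agent.Helper46.ND

open MeasureTheory Set Filter Topology
open Pool.Agent.Helper28.ND

lemma pd_comp {d : ℕ} (i : Fin d) (φ : ℝ → ℝ) (ψ : (Fin d → ℝ) → ℝ) (x : Fin d → ℝ)
    (hφ : DifferentiableAt ℝ φ (ψ x)) (hψ : DifferentiableAt ℝ ψ x) :
    pd i (fun y => φ (ψ y)) x = deriv φ (ψ x) * pd i ψ x := by
  unfold pd
  have h := (hφ.hasDerivAt.comp_hasFDerivAt x hψ.hasFDerivAt).fderiv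
  have h2 : fderiv ℝ (fun y => φ (ψ y)) x = deriv φ (ψ x) • fderiv ℝ ψ x := h
  rw [h2]
  simp

lemma pd_mul {d : ℕ} (i : Fin d) (f g : (Fin d → ℝ) → ℝ) (x : Fin d → ℝ)
    (hf : DifferentiableAt ℝ f x) (hg : DifferentiableAt ℝ g x) :
    pd i (fun y => f y * g y) x = f x * pd i g x + g x * pd i f x := by
  unfold pd
  have h := (hf.hasFDerivAt.mul hg.hasFDerivAt).fderiv
  have h2 : fderiv ℝ (fun y => f y * g y) x = f x • fderiv ℝ g x + g x • fderiv ℝ f x := h
  rw [h2]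
  simp

lemma pd_const_mul {d : ℕ} (i : Fin d) (c : ℝ) (g : (Fin d → ℝ) → ℝ) (x : Fin d → ℝ)
    (hg : DifferentiableAt ℝ g x) :
    pd i (fun y => c * g y) x = c * pd i g x := by
  unfold pd
  have h2 : fderiv ℝ (fun y => c * g y) x = c • fderiv ℝ g x := fderiv_const_mul hg c
  rw [h2]
  simp

lemma pd_add {d : ℕ} (i : Fin d) (f g : (Fin d → ℝ) → ℝ) (x : Fin d → ℝ)
    (hf : DifferentiableAt ℝ f x) (hg : DifferentiableAt ℝ g x) :
    pd i (fun y => f y + g y) x = pd i f x + pd i g x := by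
  unfold pd
  have h := (hf.hasFDerivAt.add hg.hasFDerivAt).fderiv
  have h2 : fderiv ℝ (fun y => f y + g y) x = fderiv ℝ f x + fderiv ℝ g x := h
  rw [h2]
  simp

lemma pd_coord {d : ℕ} (i j : Fin d) (x : Fin d → ℝ) :
    pd i (fun y => y j) x = if i = j then 1 else 0 := by
  unfold pd
  have h : fderiv ℝ (fun y : Fin d → ℝ => y j) x = ContinuousLinearMap.proj j :=
    (ContinuousLinearMap.proj (R := ℝ) (φ := fun _ : Fin d => ℝ) j).fderiv
  rw [h]
  simp [Pi.single_apply, eq_comm]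

lemma diff_coord {d : ℕ} (j : Fin d) : Differentiable ℝ (fun y : Fin d → ℝ => y j) :=
  (ContinuousLinearMap.proj (R := ℝ) (φ := fun _ : Fin d => ℝ) j).differentiable

lemma contDiff_coord {d : ℕ} {n : WithTop ℕ∞} (j : Fin d) :
    ContDiff ℝ n (fun y : Fin d → ℝ => y j) :=
  (ContinuousLinearMap.proj (R := ℝ) (φ := fun _ : Fin d => ℝ) j).contDiff

lemma pd_coord_comp {d : ℕ} (i j : Fin d) (φ : ℝ → ℝ) (x : Fin d → ℝ)
    (hφ : DifferentiableAt ℝ φ (x j)) :
    pd i (fun y => φ (y j)) x = if i = j then deriv φ (x j) else 0 := by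
  rw [pd_comp i φ (fun y => y j) x hφ (diff_coord j x), pd_coord]
  split_ifs <;> simp

/-- the partial derivatives of a `C²` function are differentiable -/
lemma pd_diff {d : ℕ} (i : Fin d) {ψ : (Fin d → ℝ) → ℝ} (hψ : ContDiff ℝ 2 ψ) :
    Differentiable ℝ (pd i ψ) := by
  unfold pd
  have h : ContDiff ℝ 1 (fderiv ℝ ψ) := hψ.fderiv_right (by norm_num)
  exact (h.differentiable (by norm_num)).clm_apply (differentiable_const _)

lemma deriv_diff {φ : ℝ → ℝ} (hφ : ContDiff ℝ 2 φ) : Differentiable ℝ (deriv φ) := by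
  have h : ContDiff ℝ 1 (deriv φ) := by
    have e : (1 : WithTop ℕ∞) + 1 = 2 := by norm_num
    have := (contDiff_succ_iff_deriv (n := 1) (f := φ)).1 (by rw [e]; exact hφ)
    exact this.2.2
  exact h.differentiable (by norm_num)

lemma lap_comp {d : ℕ} {φ : ℝ → ℝ} {ψ : (Fin d → ℝ) → ℝ} (hφ : ContDiff ℝ 2 φ)
    (hψ : ContDiff ℝ 2 ψ) (x : Fin d → ℝ) :
    lap (fun y => φ (ψ y)) x
      = deriv (deriv φ) (ψ x) * ∑ i, (pd i ψ x) ^ 2 + deriv φ (ψ x) * lap ψ x := by
  have d1 : Differentiable ℝ φ := hφ.differentiable (by norm_num)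
  have d2 : Differentiable ℝ ψ := hψ.differentiable (by norm_num)
  have h1 : ∀ i, pd i (fun y => φ (ψ y)) = fun y => deriv φ (ψ y) * pd i ψ y := fun i =>
    funext fun y => pd_comp i φ ψ y (d1 _) (d2 _)
  unfold lap
  rw [Finset.mul_sum, Finset.mul_sum, ← Finset.sum_add_distrib]
  refine Finset.sum_congr rfl fun i _ => ?_
  rw [h1 i, pd_mul i (fun y => deriv φ (ψ y)) (pd i ψ) x
    ((deriv_diff hφ).comp d2 x) (pd_diff i hψ x),
    pd_comp i (deriv φ) ψ x (deriv_diff hφ _) (d2 x)]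
  ring

lemma lap_const_mul {d : ℕ} (c : ℝ) {ψ : (Fin d → ℝ) → ℝ} (hψ : ContDiff ℝ 2 ψ)
    (x : Fin d → ℝ) : lap (fun y => c * ψ y) x = c * lap ψ x := by
  have d2 : Differentiable ℝ ψ := hψ.differentiable (by norm_num)
  have h1 : ∀ i, pd i (fun y => c * ψ y) = fun y => c * pd i ψ y := fun i =>
    funext fun y => pd_const_mul i c ψ y (d2 _)
  unfold lap
  rw [Finset.mul_sum]
  refine Finset.sum_congr rfl fun i _ => ?_
  rw [h1 i, pd_const_mul i c (pd i ψ) x (pd_diff i hψ x)]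

lemma lap_add {d : ℕ} {φ ψ : (Fin d → ℝ) → ℝ} (hφ : ContDiff ℝ 2 φ) (hψ : ContDiff ℝ 2 ψ)
    (x : Fin d → ℝ) : lap (fun y => φ y + ψ y) x = lap φ x + lap ψ x := by
  have d1 : Differentiable ℝ φ := hφ.differentiable (by norm_num)
  have d2 : Differentiable ℝ ψ := hψ.differentiable (by norm_num)
  have h1 : ∀ i, pd i (fun y => φ y + ψ y) = fun y => pd i φ y + pd i ψ y := fun i =>
    funext fun y => pd_add i φ ψ y (d1 _) (d2 _)
  unfold lap
  rw [← Finset.sum_add_distrib]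
  refine Finset.sum_congr rfl fun i _ => ?_
  rw [h1 i, pd_add i (pd i φ) (pd i ψ) x (pd_diff i hφ x) (pd_diff i hψ x)]

lemma lap_coord_comp {d : ℕ} (j : Fin d) {φ : ℝ → ℝ} (hφ : ContDiff ℝ 2 φ) (x : Fin d → ℝ) :
    lap (fun y => φ (y j)) x = deriv (deriv φ) (x j) := by
  rw [lap_comp hφ (contDiff_coord j)]
  have h1 : ∀ i, pd i (fun y : Fin d → ℝ => y j) = fun _ => if i = j then 1 else 0 := fun i =>
    funext fun y => pd_coord i j y
  have h2 : lap (fun y : Fin d → ℝ => y j) x = 0 := by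
    unfold lap
    refine Finset.sum_eq_zero fun i _ => ?_
    rw [h1 i]
    unfold pd
    simp
  rw [h2]
  simp [h1]

/-- derivatives of `φ ((y - l) / w)` -/
lemma deriv_resc {φ : ℝ → ℝ} (hφ : Differentiable ℝ φ) (l w y : ℝ) :
    deriv (fun y => φ ((y - l) / w)) y = deriv φ ((y - l) / w) / w := by
  have h1 : HasDerivAt (fun y : ℝ => (y - l) / w) (1 / w) y :=
    ((hasDerivAt_id y).sub_const l).div_const w
  have h2 := ((hφ _).hasDerivAt.comp y h1).deriv
  have h3 : deriv (fun y => φ ((y - l) / w)) y = deriv φ ((y - l) / w) * (1 / w) := h2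
  rw [h3]
  ring

lemma deriv2_resc {φ : ℝ → ℝ} (hφ : ContDiff ℝ 2 φ) (l w y : ℝ) :
    deriv (deriv (fun y => φ ((y - l) / w))) y = deriv (deriv φ) ((y - l) / w) / w ^ 2 := by
  have h1 : deriv (fun y => φ ((y - l) / w)) = fun y => deriv φ ((y - l) / w) / w :=
    funext fun y => deriv_resc (hφ.differentiable (by norm_num)) l w y
  rw [h1, deriv_div_const, deriv_resc (deriv_diff hφ)]
  rw [pow_two, div_div]

/-- the measure of `Q4` is finite -/
lemma vol_Q4 : volume Q4 < ⊤ := by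
  have h : Q4 ⊆ Set.Icc (0 : Fin 2 → ℝ) 1 := by
    intro x hx
    obtain ⟨h1, h2, h3, h4⟩ := hx
    rw [Set.mem_Icc, Pi.le_def, Pi.le_def]
    constructor
    · intro i
      fin_cases i
      · simpa using h1.le
      · simpa using h3.le
    · intro i
      fin_cases i
      · show x 0 ≤ 1
        linarith
      · simpa using h4
  refine lt_of_le_of_lt (measure_mono h) ?_
  exact isCompact_Icc.measure_lt_top

lemma meas_Q4 : MeasurableSet Q4 := by
  have h0 : Measurable (fun x : Fin 2 → ℝ => x 0) := measurable_pi_apply 0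
  have h1 : Measurable (fun x : Fin 2 → ℝ => x 1) := measurable_pi_apply 1
  have : Q4 = ((fun x : Fin 2 → ℝ => x 0) ⁻¹' Ioo 0 (1 / 4)) ∩
      ((fun x : Fin 2 → ℝ => x 1) ⁻¹' Ioc 0 1) := by
    ext x
    simp only [Q4, Set.mem_ofPred_eq, Set.mem_inter_iff, Set.mem_preimage, Set.mem_Ioo, Set.mem_Ioc]
    tauto
  rw [this]
  exact (h0 measurableSet_Ioo).inter (h1 measurableSet_Ioc)

end Pool.Agent.Helper46.ND
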